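import Pool.Agent.D0H28.WK.Defs

set_option autoImplicit false

/-!
# Abstract properties of the free space used in the proof
-/

noncomputable section

namespace Pool.Agent.D0H28.WK

open Set Filter Topology
open scoped ENNReal

universe u v

/-- The properties of the free space that the proof uses. -/
structure FreeLike {M : Type u} [MetricSpace M] (o : M) {X : Type v} [NormedAddCommGroup X]
    [NormedSpace ℝ X] (δ : M → X) : Prop where
  base : δ o = 0
  lip : ∀ x y, ‖δ x - δ y‖ ≤ dist x y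
  dense : ∀ x : X, ∀ ε : ℝ, 0 < ε → ∃ u : M →₀ ℝ, ‖Finsupp.linearCombination ℝ δ u - x‖ ≤ ε
  ext : ∀ (f : M → ℝ) (L : ℝ), 0 ≤ L → f o = 0 → (∀ x y, |f x - f y| ≤ L * dist x y) →
    ∃ φ : StrongDual ℝ X, ‖φ‖ ≤ L ∧ ∀ x, φ (δ x) = f x

theorem freeLike (M : Type u) [MetricSpace M] (o : M) : FreeLike o (dlt M o) where
  base := by
    apply Subtype.ext
    apply ContinuousLinearMap.ext
    intro f
    exact f.fn_base
  lip := by
    intro x y
    have : ‖dlt M o x - dlt M o y‖ = ‖evalAt M o x - evalAt M o y‖ := rfl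
    rw [this]
    refine ContinuousLinearMap.opNorm_le_bound _ dist_nonneg fun f => ?_
    have := f.abs_sub_le x y
    rw [mul_comm]
    exact this
  dense := by
    intro x ε hε
    have hx : (x : StrongDual ℝ (Lip0 M o)) ∈ closure
        ((Submodule.span ℝ (Set.range (evalAt M o)) : Submodule ℝ _) : Set _) := x.2
    rw [Metric.mem_closure_iff] at hx
    obtain ⟨ν, hν, hd⟩ := hx ε hε
    rw [SetLike.mem_coe, Finsupp.mem_span_range_iff_exists_finsupp] at hν
    obtain ⟨u, hu⟩ := hν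
    refine ⟨u, ?_⟩
    have h1 : ((Finsupp.linearCombination ℝ (dlt M o) u : FreeSpace M o) :
        StrongDual ℝ (Lip0 M o)) = ν := by
      rw [← hu, Finsupp.linearCombination_apply, Finsupp.sum, Finsupp.sum]
      simp [dlt]
    have h2 : ‖Finsupp.linearCombination ℝ (dlt M o) u - x‖ = ‖ν - x‖ := by
      rw [← h1]; rfl
    rw [h2, ← dist_eq_norm, dist_comm]
    exact hd.le
  ext := by
    intro f L hL h0 hf
    let F : Lip0 M o := Lip0.mk' f h0 L hL hf
    have hF : ‖F‖ ≤ L := Lip0.norm_le' F hL hf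
    refine ⟨(ContinuousLinearMap.apply ℝ ℝ F).comp (freeSub M o).subtypeL, ?_, fun x => rfl⟩
    refine ContinuousLinearMap.opNorm_le_bound _ hL fun μ => ?_
    change ‖(μ : StrongDual ℝ (Lip0 M o)) F‖ ≤ L * ‖μ‖
    calc ‖(μ : StrongDual ℝ (Lip0 M o)) F‖ ≤ ‖(μ : StrongDual ℝ (Lip0 M o))‖ * ‖F‖ :=
          ContinuousLinearMap.le_opNorm _ _
      _ ≤ ‖(μ : StrongDual ℝ (Lip0 M o))‖ * L :=
          mul_le_mul_of_nonneg_left hF (norm_nonneg _)
      _ = L * ‖μ‖ := mul_comm _ _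

section Basic

variable {M : Type u} [MetricSpace M] {o : M} {X : Type v} [NormedAddCommGroup X]
    [NormedSpace ℝ X] {δ : M → X}

omit [MetricSpace M] in
theorem apply_lc (φ : StrongDual ℝ X) (u : M →₀ ℝ) :
    φ (Finsupp.linearCombination ℝ δ u) = ∑ y ∈ u.support, u y * φ (δ y) := by
  rw [Finsupp.linearCombination_apply, Finsupp.sum, map_sum]
  simp

theorem dual_lip (hF : FreeLike o δ) (φ : StrongDual ℝ X) (hφ : ‖φ‖ ≤ 1) (x y : M) :
    |φ (δ x) - φ (δ y)| ≤ dist x y := by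
  rw [← map_sub, ← Real.norm_eq_abs]
  calc _ ≤ ‖φ‖ * ‖δ x - δ y‖ := φ.le_opNorm _
    _ ≤ 1 * ‖δ x - δ y‖ := mul_le_mul_of_nonneg_right hφ (norm_nonneg _)
    _ ≤ _ := by rw [one_mul]; exact hF.lip x y

theorem dual_abs_le (hF : FreeLike o δ) (φ : StrongDual ℝ X) (hφ : ‖φ‖ ≤ 1) (x : M) :
    |φ (δ x)| ≤ dist x o := by
  have := dual_lip hF φ hφ x o
  rwa [hF.base, map_zero, sub_zero] at this

/-- The weighted mass bound. -/
theorem mass_bound (hF : FreeLike o δ) {θ : ℝ} (hθ : 0 < θ)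
    (hsep : ∀ x y : M, x ≠ y → θ ≤ dist x y) (u : M →₀ ℝ) (ρ : M → ℝ) {r : ℝ} (hr : 0 ≤ r)
    (h0 : ρ o = 0) (hρ0 : ∀ y ∈ u.support, 0 ≤ ρ y) (hρr : ∀ y ∈ u.support, ρ y ≤ r) :
    ∑ y ∈ u.support, |u y| * ρ y ≤ 2 * r / θ * ‖Finsupp.linearCombination ℝ δ u‖ := by
  classical
  let f : M → ℝ := fun y => if y ∈ u.support then (SignType.sign (u y) : ℝ) * ρ y else 0
  have hfabs : ∀ y, |f y| ≤ r := by
    intro y
    by_cases hy : y ∈ u.support
    · have h1 : f y = (SignType.sign (u y) : ℝ) * ρ y := if_pos hy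
      rw [h1, abs_mul]
      have h2 : |(SignType.sign (u y) : ℝ)| ≤ 1 := by
        rcases lt_trichotomy (u y) 0 with h | h | h
        · simp [h]
        · simp [h]
        · simp [h]
      have h3 : |ρ y| ≤ r := by rw [abs_of_nonneg (hρ0 y hy)]; exact hρr y hy
      calc _ ≤ 1 * r := mul_le_mul h2 h3 (abs_nonneg _) zero_le_one
        _ = r := one_mul r
    · have h1 : f y = 0 := if_neg hy
      rw [h1, abs_zero]; exact hr
  obtain ⟨φ, hφ, hφf⟩ := hF.ext f (2 * r / θ) (by positivity) (by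
      by_cases ho : o ∈ u.support
      · change (if o ∈ u.support then (SignType.sign (u o) : ℝ) * ρ o else 0) = 0
        rw [if_pos ho, h0, mul_zero]
      · exact if_neg ho) (by
      intro x y
      rcases eq_or_ne x y with rfl | hxy
      · simp
      · have h1 := hsep x y hxy
        have h2 : |f x - f y| ≤ 2 * r := by
          calc |f x - f y| ≤ |f x| + |f y| := abs_sub _ _
            _ ≤ r + r := add_le_add (hfabs x) (hfabs y)
            _ = 2 * r := by ring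
        calc |f x - f y| ≤ 2 * r := h2
          _ = 2 * r / θ * θ := by field_simp
          _ ≤ 2 * r / θ * dist x y := mul_le_mul_of_nonneg_left h1 (by positivity))
  have h1 : φ (Finsupp.linearCombination ℝ δ u) = ∑ y ∈ u.support, |u y| * ρ y := by
    rw [apply_lc]
    apply Finset.sum_congr rfl
    intro y hy
    rw [hφf]
    have h1 : f y = (SignType.sign (u y) : ℝ) * ρ y := if_pos hy
    rw [h1, ← mul_assoc]
    congr 1
    exact self_mul_sign (u y)
  rw [← h1]
  calc _ ≤ ‖φ (Finsupp.linearCombination ℝ δ u)‖ := le_abs_self _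
    _ ≤ ‖φ‖ * ‖Finsupp.linearCombination ℝ δ u‖ := φ.le_opNorm _
    _ ≤ _ := mul_le_mul_of_nonneg_right hφ (norm_nonneg _)

/-- Hahn-Banach for the distance to a subspace. -/
theorem exists_dual_dist (F : Submodule ℝ X) (a : X) (c : ℝ)
    (h : ∀ p ∈ F, c ≤ ‖a - p‖) :
    ∃ φ : StrongDual ℝ X, ‖φ‖ ≤ 1 ∧ (∀ p ∈ F, φ p = 0) ∧ c ≤ φ a := by
  obtain ⟨g, hg1, hg2⟩ := exists_dual_vector'' ℝ (F.mkQ a)
  refine ⟨LinearMap.mkContinuous (g.toLinearMap.comp F.mkQ) 1 (fun x => ?_), ?_, ?_, ?_⟩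
  · simp only [LinearMap.comp_apply]
    calc ‖g (F.mkQ x)‖ ≤ ‖g‖ * ‖F.mkQ x‖ := g.le_opNorm _
      _ ≤ 1 * ‖x‖ := mul_le_mul hg1 (Submodule.Quotient.norm_mk_le F x) (norm_nonneg _)
          zero_le_one
  · exact LinearMap.mkContinuous_norm_le _ zero_le_one _
  · intro p hp
    change g (F.mkQ p) = 0
    rw [show F.mkQ p = 0 from (Submodule.Quotient.mk_eq_zero F).2 hp, map_zero]
  · change c ≤ g (F.mkQ a)
    rw [hg2]
    have h3 : ‖F.mkQ a‖ = Metric.infDist a (F : Set X) := QuotientAddGroup.norm_mk (S := F.toAddSubgroup) a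
    simp only [RCLike.ofReal_real_eq_id, id_eq]
    rw [h3, Metric.le_infDist ⟨0, F.zero_mem⟩]
    intro p hp
    rw [dist_eq_norm]
    exact h p hp

end Basic

end Pool.Agent.D0H28.WK
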