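import Mathlib

set_option autoImplicit false

/-!
# An exhaustion lemma and an extension lemma
-/

noncomputable section

namespace Pool.Agent.D0H28.WK

open Set Filter Topology

universe u v w

/-- A bounded family of increasing functions of finite sets is almost constant from some point
on, frequently. -/
theorem exhaustion {ι : Type u} {α : Type v} (𝓕 : Filter ι) [𝓕.NeBot]
    (G : ι → Finset α → ℝ) (E₁ : Finset α) (Γ η : ℝ) (hη : 0 < η)
    (hG0 : ∀ i E, E₁ ⊆ E → 0 ≤ G i E) (hG1 : ∀ i E, E₁ ⊆ E → G i E ≤ Γ) :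
    ∃ E₀ : Finset α, E₁ ⊆ E₀ ∧ ∀ E, E₀ ⊆ E → ∃ᶠ i in 𝓕, G i E - G i E₀ < η := by
  by_contra hcon
  push Not at hcon
  have step : ∀ m : ℕ, ∃ E, E₁ ⊆ E ∧ ∀ᶠ i in 𝓕, m * η ≤ G i E := by
    intro m
    induction m with
    | zero =>
      refine ⟨E₁, Finset.Subset.refl _, Filter.Eventually.of_forall fun i => ?_⟩
      simpa using hG0 i E₁ (Finset.Subset.refl _)
    | succ m ih =>
      obtain ⟨E, hE, hm⟩ := ih
      obtain ⟨E', hE', h⟩ := hcon E hE
      refine ⟨E', hE.trans hE', ?_⟩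
      filter_upwards [hm, h] with i h1 h2
      push_cast
      linarith
  obtain ⟨m, hm⟩ := exists_nat_gt (Γ / η)
  obtain ⟨E, hE, h⟩ := step m
  obtain ⟨i, hi⟩ := h.exists
  have h1 := hG1 i E hE
  rw [div_lt_iff₀ hη] at hm
  linarith

/-- Extension of a Lipschitz family of values. -/
theorem extend_family {M : Type u} [MetricSpace M] {I : Type v} (y : I → M) (v : I → ℝ)
    (K : NNReal) (h : ∀ i i', |v i - v i'| ≤ K * dist (y i) (y i')) :
    ∃ f : M → ℝ, (∀ x x', |f x - f x'| ≤ K * dist x x') ∧ ∀ i, f (y i) = v i := by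
  classical
  let g : M → ℝ := fun x => if hx : ∃ i, y i = x then v hx.choose else 0
  have hg : ∀ i, g (y i) = v i := by
    intro i
    have hx : ∃ i', y i' = y i := ⟨i, rfl⟩
    have h1 : g (y i) = v hx.choose := dif_pos hx
    rw [h1]
    have h2 := h hx.choose i
    rw [hx.choose_spec, dist_self, mul_zero] at h2
    have := abs_nonpos_iff.1 h2
    linarith
  have hL : LipschitzOnWith K g (Set.range y) := by
    rw [lipschitzOnWith_iff_dist_le_mul]
    rintro _ ⟨i, rfl⟩ _ ⟨i', rfl⟩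
    rw [hg, hg, Real.dist_eq]
    exact h i i'
  obtain ⟨f, hf, hfg⟩ := hL.extend_real
  refine ⟨f, fun x x' => ?_, fun i => ?_⟩
  · have := hf.dist_le_mul x x'
    rwa [Real.dist_eq] at this
  · rw [← hfg ⟨i, rfl⟩, hg]

end Pool.Agent.D0H28.WK
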