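import Pool.Agent.D0H28.WK.Abs
import Pool.Agent.D0H28.WK.Iter

set_option autoImplicit false

/-!
# The case of unbounded supports
-/

noncomputable section

namespace Pool.Agent.D0H28.WK

open Set Filter Topology

universe u v

section Case1

variable {M : Type u} [MetricSpace M] {X : Type v} [NormedAddCommGroup X]
    [NormedSpace ℝ X]

/-- Functionals cut off to disjoint annuli. -/
structure Bumps (o : M) (δ : M → X) (h : ℕ → StrongDual ℝ X) (r R : ℕ → ℝ) : Prop where
  pos : ∀ j, 0 < R j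
  sep : ∀ i j, i < j → 4 * R i ≤ r j
  norm : ∀ j, ‖h j‖ ≤ 1
  van : ∀ j y, dist y o ≤ r j → h j (δ y) = 0

/-- The cut-off function. -/
def cut (o : M) (R : ℝ) (y : M) : ℝ := max 0 (min 1 (2 - dist y o / R))

theorem cut_nonneg (o : M) (R : ℝ) (y : M) : 0 ≤ cut o R y := le_max_left _ _

theorem cut_le_one (o : M) (R : ℝ) (y : M) : cut o R y ≤ 1 :=
  max_le zero_le_one (min_le_left _ _)

theorem cut_eq_one (o : M) {R : ℝ} (hR : 0 < R) {y : M} (h : dist y o ≤ R) : cut o R y = 1 := by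
  have h1 : dist y o / R ≤ 1 := by rw [div_le_one hR]; exact h
  unfold cut
  rw [min_eq_left (by linarith), max_eq_right zero_le_one]

theorem cut_eq_zero (o : M) {R : ℝ} (hR : 0 < R) {y : M} (h : 2 * R ≤ dist y o) :
    cut o R y = 0 := by
  have h1 : 2 ≤ dist y o / R := by rw [le_div_iff₀ hR]; exact h
  unfold cut
  rw [max_eq_left]
  exact (min_le_right _ _).trans (by linarith)

theorem cut_lip (o : M) {R : ℝ} (hR : 0 < R) (x y : M) :
    |cut o R x - cut o R y| ≤ dist x y / R := by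
  unfold cut
  have h1 : |max 0 (min 1 (2 - dist x o / R)) - max 0 (min 1 (2 - dist y o / R))| ≤
      |min 1 (2 - dist x o / R) - min 1 (2 - dist y o / R)| := by
    have := abs_max_sub_max_le_max 0 (min 1 (2 - dist x o / R)) 0 (min 1 (2 - dist y o / R))
    simpa using this
  have h2 : |min 1 (2 - dist x o / R) - min 1 (2 - dist y o / R)| ≤
      |(2 - dist x o / R) - (2 - dist y o / R)| := by
    have := abs_min_sub_min_le_max 1 (2 - dist x o / R) 1 (2 - dist y o / R)
    simpa using this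
  refine h1.trans (h2.trans ?_)
  have h3 : (2 - dist x o / R) - (2 - dist y o / R) = (dist y o - dist x o) / R := by ring
  rw [h3, abs_div, abs_of_pos hR]
  apply div_le_div_of_nonneg_right _ hR.le
  rw [dist_comm x y]
  exact abs_dist_sub_le y x o

/-- The cut off functional, as a function on `M`. -/
def bump (o : M) (δ : M → X) (h : ℕ → StrongDual ℝ X) (R : ℕ → ℝ) (j : ℕ) (y : M) : ℝ :=
  cut o (R j) y * h j (δ y)

variable {o : M} {δ : M → X} {h : ℕ → StrongDual ℝ X} {r R : ℕ → ℝ}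

theorem bump_abs_le (hF : FreeLike o δ) (B : Bumps o δ h r R) (j : ℕ) (y : M) :
    |bump o δ h R j y| ≤ dist y o := by
  unfold bump
  rw [abs_mul, abs_of_nonneg (cut_nonneg _ _ _)]
  calc _ ≤ 1 * dist y o := mul_le_mul (cut_le_one _ _ _) (dual_abs_le hF _ (B.norm j) y)
        (abs_nonneg _) zero_le_one
    _ = _ := one_mul _

theorem bump_zero_in (B : Bumps o δ h r R) (j : ℕ) {y : M} (hy : dist y o ≤ r j) :
    bump o δ h R j y = 0 := by
  unfold bump; rw [B.van j y hy, mul_zero]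

theorem bump_zero_out (B : Bumps o δ h r R) (j : ℕ) {y : M} (hy : 2 * R j ≤ dist y o) :
    bump o δ h R j y = 0 := by
  unfold bump; rw [cut_eq_zero o (B.pos j) hy, zero_mul]

theorem bump_mid (B : Bumps o δ h r R) (j : ℕ) {y : M} (hy : dist y o ≤ R j) :
    bump o δ h R j y = h j (δ y) := by
  unfold bump; rw [cut_eq_one o (B.pos j) hy, one_mul]

theorem bump_lip (hF : FreeLike o δ) (B : Bumps o δ h r R) (j : ℕ) (x y : M) :
    |bump o δ h R j x - bump o δ h R j y| ≤ 3 * dist x y := by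
  have key : ∀ x y : M, dist y o ≤ 2 * R j →
      |bump o δ h R j x - bump o δ h R j y| ≤ 3 * dist x y := by
    intro x y hy
    have e1 : bump o δ h R j x - bump o δ h R j y =
        cut o (R j) x * (h j (δ x) - h j (δ y)) +
          (cut o (R j) x - cut o (R j) y) * h j (δ y) := by
      unfold bump; ring
    rw [e1]
    have e2 := dual_lip hF _ (B.norm j) x y
    have e3 := dual_abs_le hF _ (B.norm j) y
    have e4 := cut_lip o (B.pos j) x y
    have e5 : |cut o (R j) x * (h j (δ x) - h j (δ y))| ≤ dist x y := by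
      rw [abs_mul, abs_of_nonneg (cut_nonneg _ _ _)]
      calc _ ≤ 1 * dist x y := mul_le_mul (cut_le_one _ _ _) e2 (abs_nonneg _) zero_le_one
        _ = _ := one_mul _
    have e6 : |(cut o (R j) x - cut o (R j) y) * h j (δ y)| ≤ 2 * dist x y := by
      rw [abs_mul]
      calc _ ≤ (dist x y / R j) * (2 * R j) :=
            mul_le_mul e4 (e3.trans hy) (abs_nonneg _) (div_nonneg dist_nonneg (B.pos j).le)
        _ = 2 * dist x y := by have := (B.pos j).ne'; field_simp
    calc _ ≤ _ := abs_add_le _ _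
      _ ≤ dist x y + 2 * dist x y := add_le_add e5 e6
      _ = _ := by ring
  rcases le_total (dist y o) (2 * R j) with hy | hy
  · exact key x y hy
  · rcases le_total (dist x o) (2 * R j) with hx | hx
    · rw [abs_sub_comm, dist_comm]
      exact key y x hx
    · rw [bump_zero_out B j hy, bump_zero_out B j hx, sub_zero, abs_zero]
      positivity

theorem bump_sep (B : Bumps o δ h r R) {i j : ℕ} (hij : i < j) {x y : M}
    (hx : bump o δ h R i x ≠ 0) (hy : bump o δ h R j y ≠ 0) :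
    2 * dist x o ≤ dist y o ∧ 0 < dist y o := by
  have h1 : dist x o < 2 * R i := by
    by_contra hcon
    exact hx (bump_zero_out B i (not_lt.1 hcon))
  have h2 : r j < dist y o := by
    by_contra hcon
    exact hy (bump_zero_in B j (not_lt.1 hcon))
  have h3 := B.sep i j hij
  have h4 := B.pos i
  constructor <;> linarith

theorem bump_disj (B : Bumps o δ h r R) {i j : ℕ} {x : M}
    (hx : bump o δ h R i x ≠ 0) (hy : bump o δ h R j x ≠ 0) : i = j := by
  rcases lt_trichotomy i j with hij | hij | hij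
  · obtain ⟨h1, h2⟩ := bump_sep B hij hx hy
    linarith
  · exact hij
  · obtain ⟨h1, h2⟩ := bump_sep B hij hy hx
    linarith

theorem bump_functional (hF : FreeLike o δ) (B : Bumps o δ h r R) (s : ℕ → ℝ)
    (hs : ∀ j, |s j| ≤ 1) :
    ∃ φ : StrongDual ℝ X, ‖φ‖ ≤ 3 ∧
      ∀ (u : M →₀ ℝ) (E : Finset ℕ),
        (∀ y ∈ u.support, ∀ j, j ∉ E → s j * bump o δ h R j y = 0) →
        φ (Finsupp.linearCombination ℝ δ u) =
          ∑ j ∈ E, s j * ∑ y ∈ u.support, u y * bump o δ h R j y := by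
  classical
  let F : M → ℝ := fun y => if hy : ∃ j, bump o δ h R j y ≠ 0 then
    s hy.choose * bump o δ h R hy.choose y else 0
  have hF1 : ∀ y j, bump o δ h R j y ≠ 0 → F y = s j * bump o δ h R j y := by
    intro y j hj
    have hy : ∃ j, bump o δ h R j y ≠ 0 := ⟨j, hj⟩
    have e1 : F y = s hy.choose * bump o δ h R hy.choose y := dif_pos hy
    have e2 : hy.choose = j := bump_disj B hy.choose_spec hj
    rw [e1, e2]
  have hF0 : ∀ y, (∀ j, bump o δ h R j y = 0) → F y = 0 := by
    intro y hy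
    apply dif_neg
    rintro ⟨j, hj⟩
    exact hj (hy j)
  have hsle : ∀ j t, |s j * t| ≤ |t| := by
    intro j t
    rw [abs_mul]
    calc _ ≤ 1 * |t| := mul_le_mul_of_nonneg_right (hs j) (abs_nonneg _)
      _ = _ := one_mul _
  have hlip1 : ∀ x y i, bump o δ h R i x ≠ 0 → (∀ j, bump o δ h R j y = 0) →
      |F x - F y| ≤ 3 * dist x y := by
    intro x y i hi hy
    rw [hF1 x i hi, hF0 y hy, sub_zero]
    refine (hsle _ _).trans ?_
    have := bump_lip hF B i x y
    rwa [hy i, sub_zero] at this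
  have hlip2 : ∀ x y i j, i < j → bump o δ h R i x ≠ 0 → bump o δ h R j y ≠ 0 →
      |F x - F y| ≤ 3 * dist x y := by
    intro x y i j hij hi hj
    rw [hF1 x i hi, hF1 y j hj]
    obtain ⟨e1, e2⟩ := bump_sep B hij hi hj
    have e3 := (hsle i _).trans (bump_abs_le hF B i x)
    have e4 := (hsle j _).trans (bump_abs_le hF B j y)
    have e5 : dist y o ≤ dist x y + dist x o := by
      rw [dist_comm x y]; exact dist_triangle y x o
    calc _ ≤ _ := abs_sub _ _
      _ ≤ dist x o + dist y o := add_le_add e3 e4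
      _ ≤ _ := by linarith
  have hlip : ∀ x y, |F x - F y| ≤ 3 * dist x y := by
    intro x y
    by_cases hx : ∃ i, bump o δ h R i x ≠ 0
    · obtain ⟨i, hi⟩ := hx
      by_cases hy : ∃ j, bump o δ h R j y ≠ 0
      · obtain ⟨j, hj⟩ := hy
        rcases lt_trichotomy i j with hij | hij | hij
        · exact hlip2 x y i j hij hi hj
        · subst hij
          rw [hF1 x i hi, hF1 y i hj, ← mul_sub]
          exact (hsle _ _).trans (bump_lip hF B i x y)
        · rw [abs_sub_comm, dist_comm]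
          exact hlip2 y x j i hij hj hi
      · push Not at hy
        exact hlip1 x y i hi hy
    · push Not at hx
      by_cases hy : ∃ j, bump o δ h R j y ≠ 0
      · obtain ⟨j, hj⟩ := hy
        rw [abs_sub_comm, dist_comm]
        exact hlip1 y x j hj hx
      · push Not at hy
        rw [hF0 x hx, hF0 y hy, sub_zero, abs_zero]
        positivity
  have hFo : F o = 0 := by
    apply hF0
    intro j
    have := bump_abs_le hF B j o
    rw [dist_self] at this
    exact abs_nonpos_iff.1 this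
  obtain ⟨φ, hφ, hφF⟩ := hF.ext F 3 (by norm_num) hFo hlip
  refine ⟨φ, hφ, fun u E hE => ?_⟩
  have e1 : ∀ y ∈ u.support, F y = ∑ j ∈ E, s j * bump o δ h R j y := by
    intro y hy
    by_cases hy' : ∃ j, bump o δ h R j y ≠ 0
    · obtain ⟨j, hj⟩ := hy'
      rw [hF1 y j hj]
      have hother : ∀ i, i ≠ j → s i * bump o δ h R i y = 0 := by
        intro i hij
        have : bump o δ h R i y = 0 := by
          by_contra hi
          exact hij (bump_disj B hi hj)
        rw [this, mul_zero]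
      by_cases hjE : j ∈ E
      · rw [Finset.sum_eq_single j (fun i _ hij => hother i hij) (fun h => absurd hjE h)]
      · rw [hE y hy j hjE]
        symm
        refine Finset.sum_eq_zero fun i hi => hother i ?_
        rintro rfl
        exact hjE hi
    · push Not at hy'
      rw [hF0 y hy']
      symm
      exact Finset.sum_eq_zero fun i _ => by rw [hy' i, mul_zero]
  rw [apply_lc]
  calc ∑ y ∈ u.support, u y * φ (δ y)
      = ∑ y ∈ u.support, ∑ j ∈ E, s j * (u y * bump o δ h R j y) := by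
        refine Finset.sum_congr rfl fun y hy => ?_
        rw [hφF, e1 y hy, Finset.mul_sum]
        exact Finset.sum_congr rfl fun j _ => by ring
    _ = ∑ j ∈ E, ∑ y ∈ u.support, s j * (u y * bump o δ h R j y) := Finset.sum_comm
    _ = _ := Finset.sum_congr rfl fun j _ => by rw [Finset.mul_sum]

/-- The sum of the absolute values is bounded. -/
theorem bump_sum_le (hF : FreeLike o δ) (B : Bumps o δ h r R) (u : M →₀ ℝ) (E : Finset ℕ) :
    ∑ j ∈ E, |∑ y ∈ u.support, u y * bump o δ h R j y| ≤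
      3 * ‖Finsupp.linearCombination ℝ δ u‖ := by
  classical
  let s : ℕ → ℝ := fun j => if j ∈ E then
    (SignType.sign (∑ y ∈ u.support, u y * bump o δ h R j y) : ℝ) else 0
  have hs : ∀ j, |s j| ≤ 1 := by
    intro j
    by_cases hj : j ∈ E
    · have e1 : s j = (SignType.sign (∑ y ∈ u.support, u y * bump o δ h R j y) : ℝ) := if_pos hj
      rw [e1]
      rcases lt_trichotomy (∑ y ∈ u.support, u y * bump o δ h R j y) 0 with h | h | h
      · simp [h]
      · simp [h]
      · simp [h]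
    · have e1 : s j = 0 := if_neg hj
      rw [e1]; simp
  obtain ⟨φ, hφ, hφu⟩ := bump_functional hF B s hs
  have e2 := hφu u E (fun y _ j hj => by
    have e1 : s j = 0 := if_neg hj
    rw [e1, zero_mul])
  have e3 : ∑ j ∈ E, s j * ∑ y ∈ u.support, u y * bump o δ h R j y =
      ∑ j ∈ E, |∑ y ∈ u.support, u y * bump o δ h R j y| := by
    refine Finset.sum_congr rfl fun j hj => ?_
    have e1 : s j = (SignType.sign (∑ y ∈ u.support, u y * bump o δ h R j y) : ℝ) := if_pos hj
    rw [e1]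
    exact sign_mul_self _
  rw [← e3, ← e2]
  calc _ ≤ ‖φ (Finsupp.linearCombination ℝ δ u)‖ := le_abs_self _
    _ ≤ ‖φ‖ * ‖Finsupp.linearCombination ℝ δ u‖ := φ.le_opNorm _
    _ ≤ _ := mul_le_mul_of_nonneg_right hφ (norm_nonneg _)

theorem case1 (hF : FreeLike o δ) (A : Set X) (K : ℝ) (hA : ∀ a ∈ A, ‖a‖ ≤ K) (τ ε η : ℝ)
    (hε : 0 < ε) (hη : 0 < η)
    (hc : ∀ r : ℝ, ∃ a ∈ A, ∀ p ∈ Submodule.span ℝ (δ '' Metric.closedBall o r), τ ≤ ‖a - p‖) :
    ∃ a : ℕ → X, (∀ j, a j ∈ A) ∧ ∀ x : X, ∀ ε' : ℝ, 0 < ε' →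
      ∃ φ : StrongDual ℝ X, ‖φ‖ ≤ 3 ∧
        ∀ᶠ j in atTop, τ - 4 * ε - η - ε' ≤ φ (a j - x) := by
  classical
  have hr : ∀ r : ℝ, ∃ a ∈ A, ∃ u : M →₀ ℝ, ∃ h : StrongDual ℝ X, ∃ R : ℝ, r ≤ R ∧ 1 ≤ R ∧
      (∀ y ∈ u.support, dist y o ≤ R) ∧ ‖Finsupp.linearCombination ℝ δ u - a‖ ≤ ε ∧
      ‖h‖ ≤ 1 ∧ (∀ y, dist y o ≤ r → h (δ y) = 0) ∧ τ ≤ h a := by
    intro r
    obtain ⟨a, ha, hp⟩ := hc r
    obtain ⟨u, hu⟩ := hF.dense a ε hε
    obtain ⟨h, h1, h2, h3⟩ := exists_dual_dist _ a τ hp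
    refine ⟨a, ha, u, h, max (max r 1) (∑ y ∈ u.support, dist y o),
      (le_max_left _ _).trans (le_max_left _ _), (le_max_right _ _).trans (le_max_left _ _),
      fun y hy => le_trans ?_ (le_max_right _ _), hu, h1,
      fun y hy => h2 _ (Submodule.subset_span ⟨y, Metric.mem_closedBall.2 hy, rfl⟩), h3⟩
    exact Finset.single_le_sum (f := fun y => dist y o) (fun _ _ => dist_nonneg) hy
  choose a haA u h rad hrad1 hrad2 hur hua h1 h0 hha using hr
  obtain ⟨rs, hrs⟩ : ∃ rs : ℕ → ℝ, rs 0 = 1 ∧ ∀ j, rs (j + 1) = 4 * rad (rs j) :=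
    ⟨fun n => Nat.rec 1 (fun _ r => 4 * rad r) n, rfl, fun _ => rfl⟩
  obtain ⟨hrs0, hrs⟩ := hrs
  have hrsmono : Monotone rs := by
    refine monotone_nat_of_le_succ fun j => ?_
    have e1 := hrad1 (rs j)
    have e2 := hrad2 (rs j)
    rw [hrs]; linarith
  have hrsge : ∀ j : ℕ, (j : ℝ) ≤ rs j := by
    intro j
    induction j with
    | zero => rw [hrs0]; norm_num
    | succ j ih =>
      have e1 := hrad1 (rs j)
      have e2 := hrad2 (rs j)
      rw [hrs]; push_cast; linarith
  have B : Bumps o δ (fun j => h (rs j)) rs (fun j => rad (rs j)) :=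
    { pos := fun j => by have := hrad2 (rs j); linarith
      sep := fun i j hij => by rw [← hrs]; exact hrsmono hij
      norm := fun j => h1 _
      van := fun j y hy => h0 _ y hy }
  let val : ℕ → ℕ → ℝ := fun j l => ∑ y ∈ (u (rs l)).support,
    u (rs l) y * bump o δ (fun j => h (rs j)) (fun j => rad (rs j)) j y
  have hTu : ∀ l, ‖Finsupp.linearCombination ℝ δ (u (rs l))‖ ≤ K + ε := by
    intro l
    calc ‖Finsupp.linearCombination ℝ δ (u (rs l))‖
        = ‖a (rs l) + (Finsupp.linearCombination ℝ δ (u (rs l)) - a (rs l))‖ := by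
          congr 1; abel
      _ ≤ ‖a (rs l)‖ + ‖Finsupp.linearCombination ℝ δ (u (rs l)) - a (rs l)‖ := norm_add_le _ _
      _ ≤ K + ε := add_le_add (hA _ (haA _)) (hua _)
  obtain ⟨E₀, -, hE₀⟩ := exhaustion (atTop : Filter ℕ) (fun l E => ∑ j ∈ E, |val j l|) ∅
    (3 * (K + ε)) η hη (fun l E _ => Finset.sum_nonneg fun _ _ => abs_nonneg _)
    (fun l E _ => (bump_sum_le hF B (u (rs l)) E).trans
      (mul_le_mul_of_nonneg_left (hTu l) (by norm_num)))
  have hnx : ∀ E : Finset ℕ, ∃ l : ℕ, (∀ i ∈ E, i < l) ∧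
      (E₀ ⊆ E → ∑ j ∈ E, |val j l| - ∑ j ∈ E₀, |val j l| < η) := by
    intro E
    have e1 : ∀ᶠ l in atTop, ∀ i ∈ E, i < l := by
      rw [Filter.eventually_all_finset]
      exact fun i _ => eventually_gt_atTop i
    by_cases hE : E₀ ⊆ E
    · obtain ⟨l, hl1, hl2⟩ := ((hE₀ E hE).and_eventually e1).exists
      exact ⟨l, hl2, fun _ => hl1⟩
    · obtain ⟨l, hl⟩ := e1.exists
      exact ⟨l, hl, fun h => absurd h hE⟩
  choose nx hnx1 hnx2 using hnx
  obtain ⟨Es, hEs0, hEs1⟩ : ∃ Es : ℕ → Finset ℕ, Es 0 = E₀ ∧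
      ∀ k, Es (k + 1) = insert (nx (Es k)) (Es k) :=
    ⟨fun n => Nat.rec E₀ (fun _ E => insert (nx E) E) n, rfl, fun _ => rfl⟩
  have hEsmono : Monotone Es := by
    refine monotone_nat_of_le_succ fun j => ?_
    rw [hEs1]
    exact Finset.subset_insert _ _
  have hEsE₀ : ∀ j, E₀ ⊆ Es j := fun j => hEs0 ▸ hEsmono (Nat.zero_le j)
  let l : ℕ → ℕ := fun k => nx (Es k)
  have hlmem : ∀ i k, i < k → l i ∈ Es k := by
    intro i k hik
    have e1 : l i ∈ Es (i + 1) := by rw [hEs1]; exact Finset.mem_insert_self _ _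
    exact hEsmono hik e1
  have hlmono : StrictMono l := fun i k hik => hnx1 _ _ (hlmem i k hik)
  have hlE₀ : ∀ i, l i ∉ E₀ := fun i hi => lt_irrefl _ (hnx1 (Es i) _ (hEsE₀ i hi))
  have B' : Bumps o δ (fun k => h (rs (l k))) (fun k => rs (l k)) (fun k => rad (rs (l k))) :=
    { pos := fun j => B.pos (l j)
      sep := fun i j hij => B.sep (l i) (l j) (hlmono hij)
      norm := fun j => B.norm (l j)
      van := fun j y hy => B.van (l j) y hy }
  have hsum : ∀ k, ∑ i ∈ Finset.range k, |val (l i) (l k)| < η := by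
    intro k
    have e1 := hnx2 (Es k) (hEsE₀ k)
    have e2 : ∑ j ∈ Es k \ E₀, |val j (l k)| + ∑ j ∈ E₀, |val j (l k)| =
        ∑ j ∈ Es k, |val j (l k)| := Finset.sum_sdiff (hEsE₀ k)
    have e3 : ∑ i ∈ Finset.range k, |val (l i) (l k)| ≤ ∑ j ∈ Es k \ E₀, |val j (l k)| := by
      have e4 : ∑ i ∈ Finset.range k, |val (l i) (l k)| =
          ∑ j ∈ (Finset.range k).image l, |val j (l k)| := by
        rw [Finset.sum_image (fun i _ j _ hij => hlmono.injective hij)]
      rw [e4]
      refine Finset.sum_le_sum_of_subset_of_nonneg ?_ (fun _ _ _ => abs_nonneg _)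
      intro j hj
      rw [Finset.mem_image] at hj
      obtain ⟨i, hi, rfl⟩ := hj
      rw [Finset.mem_range] at hi
      rw [Finset.mem_sdiff]
      exact ⟨hlmem i k hi, hlE₀ i⟩
    change ∑ j ∈ Es k, |val j (l k)| - ∑ j ∈ E₀, |val j (l k)| < η at e1
    linarith
  refine ⟨fun k => a (rs (l k)), fun k => haA _, fun x ε' hε' => ?_⟩
  obtain ⟨v, hv⟩ := hF.dense x (ε' / 3) (by positivity)
  obtain ⟨J, hJ⟩ := exists_nat_gt (∑ y ∈ v.support, dist y o)
  have hvJ : ∀ y ∈ v.support, dist y o ≤ rs (l J) := by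
    intro y hy
    have e1 : dist y o ≤ ∑ y ∈ v.support, dist y o :=
      Finset.single_le_sum (f := fun y => dist y o) (fun _ _ => dist_nonneg) hy
    have e2 : (J : ℝ) ≤ l J := by exact_mod_cast hlmono.le_apply
    have e3 := hrsge (l J)
    linarith
  let s : ℕ → ℝ := fun j => if J ≤ j then 1 else 0
  have hs : ∀ j, |s j| ≤ 1 := by
    intro j
    by_cases hj : J ≤ j
    · have : s j = 1 := if_pos hj
      rw [this]; simp
    · have : s j = 0 := if_neg hj
      rw [this]; simp
  obtain ⟨φ, hφ, hφu⟩ := bump_functional hF B' s hs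
  refine ⟨φ, hφ, ?_⟩
  filter_upwards [eventually_ge_atTop J] with k hk
  have g1 : φ (Finsupp.linearCombination ℝ δ v) = 0 := by
    rw [hφu v ∅ (fun y hy j _ => ?_), Finset.sum_empty]
    by_cases hj : J ≤ j
    · have e1 : dist y o ≤ rs (l j) := (hvJ y hy).trans (hrsmono (hlmono.monotone hj))
      rw [bump_zero_in B' j e1, mul_zero]
    · have : s j = 0 := if_neg hj
      rw [this, zero_mul]
  have g2 : φ (Finsupp.linearCombination ℝ δ (u (rs (l k)))) =
      ∑ j ∈ Finset.range (k + 1), s j * val (l j) (l k) := by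
    refine hφu (u (rs (l k))) (Finset.range (k + 1)) (fun y hy j hj => ?_)
    rw [Finset.mem_range, not_lt] at hj
    have e1 : dist y o ≤ rs (l j) := by
      have e2 := hur _ y hy
      have e3 := B'.sep k j hj
      have e4 := B'.pos k
      linarith
    rw [bump_zero_in B' j e1, mul_zero]
  have g3 : val (l k) (l k) = h (rs (l k)) (Finsupp.linearCombination ℝ δ (u (rs (l k)))) := by
    rw [apply_lc]
    refine Finset.sum_congr rfl fun y hy => ?_
    rw [bump_mid B (l k) (hur _ y hy)]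
  have g4 : -η ≤ ∑ j ∈ Finset.range k, s j * val (l j) (l k) := by
    have e1 : |∑ j ∈ Finset.range k, s j * val (l j) (l k)| ≤
        ∑ j ∈ Finset.range k, |val (l j) (l k)| := by
      refine (Finset.abs_sum_le_sum_abs _ _).trans (Finset.sum_le_sum fun j _ => ?_)
      rw [abs_mul]
      calc _ ≤ 1 * |val (l j) (l k)| := mul_le_mul_of_nonneg_right (hs j) (abs_nonneg _)
        _ = _ := one_mul _
    have e2 := (e1.trans (hsum k).le)
    exact (abs_le.1 e2).1
  have g5 : s k = 1 := if_pos hk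
  rw [Finset.sum_range_succ, g5, one_mul, g3] at g2
  have g6 : |h (rs (l k)) (Finsupp.linearCombination ℝ δ (u (rs (l k))) - a (rs (l k)))| ≤ ε := by
    calc _ ≤ ‖h (rs (l k))‖ * ‖Finsupp.linearCombination ℝ δ (u (rs (l k))) - a (rs (l k))‖ :=
          ContinuousLinearMap.le_opNorm _ _
      _ ≤ 1 * ε := mul_le_mul (h1 _) (hua _) (norm_nonneg _) zero_le_one
      _ = ε := one_mul _
  have g7 : |φ (Finsupp.linearCombination ℝ δ (u (rs (l k))) - a (rs (l k)))| ≤ 3 * ε := by
    calc _ ≤ ‖φ‖ * ‖Finsupp.linearCombination ℝ δ (u (rs (l k))) - a (rs (l k))‖ :=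
          φ.le_opNorm _
      _ ≤ 3 * ε := mul_le_mul hφ (hua _) (norm_nonneg _) (by norm_num)
  have g8 : |φ (Finsupp.linearCombination ℝ δ v - x)| ≤ ε' := by
    calc _ ≤ ‖φ‖ * ‖Finsupp.linearCombination ℝ δ v - x‖ := φ.le_opNorm _
      _ ≤ 3 * (ε' / 3) := mul_le_mul hφ hv (norm_nonneg _) (by norm_num)
      _ = ε' := by ring
  have g9 := hha (rs (l k))
  rw [map_sub] at g6 g7 g8 ⊢
  rw [g1] at g8
  rw [abs_le] at g6 g7 g8
  linarith [g6.1, g6.2, g7.1, g7.2, g8.1, g8.2]

end Case1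

end Pool.Agent.D0H28.WK
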