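import Pool.Agent.D0H28.WK.Abs
import Pool.Agent.D0H28.WK.Iter

set_option autoImplicit false

/-!
# The case of bounded supports
-/

noncomputable section

namespace Pool.Agent.D0H28.WK

open Set Filter Topology

universe u v

section Case2

variable {M : Type u} [MetricSpace M] {o : M} {X : Type v} [NormedAddCommGroup X]
    [NormedSpace ℝ X] {δ : M → X}

/-- A functional of norm at most one vanishing on `δ '' E` is bounded by the distance to `E`. -/
theorem abs_le_infDist (hF : FreeLike o δ) (φ : StrongDual ℝ X) (hφ : ‖φ‖ ≤ 1) (E : Finset M)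
    (hE : E.Nonempty) (h0 : ∀ e ∈ E, φ (δ e) = 0) (y : M) :
    |φ (δ y)| ≤ Metric.infDist y (E : Set M) := by
  rw [Metric.le_infDist (by simpa using hE)]
  intro e he
  have := dual_lip hF φ hφ y e
  rwa [h0 e he, sub_zero] at this

theorem case2 (hF : FreeLike o δ) {θ : ℝ} (hθ : 0 < θ) (hsep : ∀ x y : M, x ≠ y → θ ≤ dist x y)
    (A : Set X) (R : ℝ) (hA : ∀ a ∈ A, ‖a‖ ≤ R) (c τ r η : ℝ) (hr : 0 ≤ r)
    (hη : 0 < η)
    (hc : ∀ N : Finset M, ∃ a ∈ A, ∀ p ∈ Submodule.span ℝ (δ '' (N : Set M)), c ≤ ‖a - p‖)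
    (hτA : ∀ a ∈ A, ∃ u : M →₀ ℝ, (∀ y ∈ u.support, dist y o ≤ r) ∧
      ‖Finsupp.linearCombination ℝ δ u - a‖ ≤ τ) :
    ∃ a : ℕ → X, (∀ j, a j ∈ A) ∧ ∀ x : X, ∀ ε : ℝ, 0 < ε →
      ∃ φ : StrongDual ℝ X, ‖φ‖ ≤ 6 ∧
        ∀ᶠ j in atTop, c - 7 * τ - 14 * η - ε ≤ φ (a j - x) := by
  classical
  have hN : ∀ N : Finset M, ∃ a ∈ A, ∃ u : M →₀ ℝ, ∃ h : StrongDual ℝ X,
      (∀ y ∈ u.support, dist y o ≤ r) ∧ ‖Finsupp.linearCombination ℝ δ u - a‖ ≤ τ ∧
      ‖h‖ ≤ 1 ∧ (∀ e ∈ N, h (δ e) = 0) ∧ c ≤ h a := by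
    intro N
    obtain ⟨a, ha, hp⟩ := hc N
    obtain ⟨u, hu1, hu2⟩ := hτA a ha
    obtain ⟨h, h1, h2, h3⟩ := exists_dual_dist _ a c hp
    exact ⟨a, ha, u, h, hu1, hu2, h1, fun e he => h2 _ (Submodule.subset_span ⟨e, he, rfl⟩), h3⟩
  choose a haA u h hur hua h1 h0 hca using hN
  let S : Finset M → Finset M → ℝ := fun N E =>
    ∑ y ∈ (u N).support, |u N y| * Metric.infDist y (E : Set M)
  have hS0 : ∀ N E, 0 ≤ S N E := fun N E =>
    Finset.sum_nonneg fun y _ => mul_nonneg (abs_nonneg _) Metric.infDist_nonneg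
  have hTu : ∀ N, ‖Finsupp.linearCombination ℝ δ (u N)‖ ≤ R + τ := by
    intro N
    calc ‖Finsupp.linearCombination ℝ δ (u N)‖
        = ‖a N + (Finsupp.linearCombination ℝ δ (u N) - a N)‖ := by congr 1; abel
      _ ≤ ‖a N‖ + ‖Finsupp.linearCombination ℝ δ (u N) - a N‖ := norm_add_le _ _
      _ ≤ R + τ := add_le_add (hA _ (haA N)) (hua N)
  have hSΓ : ∀ N E, ({o} : Finset M) ⊆ E → S N E ≤ 2 * r / θ * (R + τ) := by
    intro N E hE
    have ho : o ∈ E := hE (Finset.mem_singleton_self o)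
    have hm := mass_bound hF hθ hsep (u N) (fun y => Metric.infDist y (E : Set M)) hr
      (Metric.infDist_zero_of_mem (by simpa using ho)) (fun y _ => Metric.infDist_nonneg)
      (fun y hy => (Metric.infDist_le_dist_of_mem (by simpa using ho)).trans (hur N y hy))
    refine hm.trans (mul_le_mul_of_nonneg_left (hTu N) (by positivity))
  obtain ⟨E₀, hE₀, hE₀'⟩ := exhaustion (atTop : Filter (Finset M))
    (fun N E => 2 * r / θ * (R + τ) - S N E) {o} (2 * r / θ * (R + τ)) η hη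
    (fun N E hE => by have := hSΓ N E hE; linarith)
    (fun N E hE => by have := hS0 N E; linarith)
  have hoE₀ : o ∈ E₀ := hE₀ (Finset.mem_singleton_self o)
  have hnx : ∀ E : Finset M, ∃ N : Finset M, E ⊆ N ∧ (E₀ ⊆ E → S N E₀ - S N E < η) := by
    intro E
    by_cases hE : E₀ ⊆ E
    · obtain ⟨N, hN1, hN2⟩ := ((hE₀' E hE).and_eventually (eventually_ge_atTop E)).exists
      exact ⟨N, hN2, fun _ => by linarith⟩
    · exact ⟨E, Finset.Subset.refl _, fun h => absurd h hE⟩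
  choose nx hnx1 hnx2 using hnx
  obtain ⟨Es, hEs0, hEs1⟩ : ∃ Es : ℕ → Finset M, Es 0 = E₀ ∧
      ∀ j, Es (j + 1) = Es j ∪ nx (Es j) ∪ (u (nx (Es j))).support :=
    ⟨fun n => Nat.rec E₀ (fun _ E => E ∪ nx E ∪ (u (nx E)).support) n, rfl, fun j => rfl⟩
  have hEsmono : Monotone Es := by
    refine monotone_nat_of_le_succ fun j => ?_
    rw [hEs1]
    exact (Finset.subset_union_left).trans Finset.subset_union_left
  have hEsE₀ : ∀ j, E₀ ⊆ Es j := fun j => hEs0 ▸ hEsmono (Nat.zero_le j)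
  have hEsne : ∀ j, (Es j).Nonempty := fun j => ⟨o, hEsE₀ j hoE₀⟩
  have hE₀ne : E₀.Nonempty := ⟨o, hoE₀⟩
  -- the sequences
  let uj : ℕ → (M →₀ ℝ) := fun j => u (nx (Es j))
  let hj : ℕ → StrongDual ℝ X := fun j => h (nx (Es j))
  let ρ : M → ℝ := fun y => Metric.infDist y (E₀ : Set M)
  let ρj : ℕ → M → ℝ := fun j y => Metric.infDist y (↑(Es j) : Set M)
  have hρ0 : ∀ y, 0 ≤ ρ y := fun y => Metric.infDist_nonneg
  have hρj0 : ∀ j y, 0 ≤ ρj j y := fun j y => Metric.infDist_nonneg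
  have hρjρ : ∀ j y, ρj j y ≤ ρ y := fun j y =>
    Metric.infDist_le_infDist_of_subset (by exact_mod_cast hEsE₀ j) (by simpa using hE₀ne)
  have hhρ : ∀ j y, |hj j (δ y)| ≤ ρj j y := fun j y =>
    abs_le_infDist hF _ (h1 _) _ (hEsne j) (fun e he => h0 _ e (hnx1 _ he)) y
  have hρlip : ∀ y y', ρ y ≤ ρ y' + dist y y' := fun y y' =>
    Metric.infDist_le_infDist_add_dist
  have hF3 : ∀ i j, i < j → ∀ y ∈ (uj i).support, ∀ y', ρj j y' ≤ dist y' y := by
    intro i j hij y hy y'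
    refine Metric.infDist_le_dist_of_mem ?_
    have h2 : y ∈ Es (i + 1) := by
      rw [hEs1]
      exact Finset.mem_union_right _ hy
    exact_mod_cast hEsmono hij h2
  have hη' : ∀ j, ∑ y ∈ (uj j).support, |uj j y| * (ρ y - ρj j y) < η := by
    intro j
    have h2 := hnx2 (Es j) (hEsE₀ j)
    have h3 : ∑ y ∈ (uj j).support, |uj j y| * (ρ y - ρj j y) =
        S (nx (Es j)) E₀ - S (nx (Es j)) (Es j) := by
      rw [← Finset.sum_sub_distrib]
      exact Finset.sum_congr rfl fun y _ => mul_sub _ _ _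
    rw [h3]; exact h2
  refine ⟨fun j => a (nx (Es j)), fun j => haA _, fun x ε hε => ?_⟩
  obtain ⟨v, hv⟩ := hF.dense x (ε / 6) (by positivity)
  -- the claim
  have claim : ∀ n : M, ∀ᶠ j in atTop, ∀ y ∈ (uj j).support, ρ y ≤ 2 * ρj j y →
      ρ y ≤ 6 * dist y n := by
    intro n
    by_contra hcon
    rw [Filter.not_eventually, Filter.frequently_atTop] at hcon
    obtain ⟨i, _, hi⟩ := hcon 0
    obtain ⟨j, hij, hj'⟩ := hcon (i + 1)
    push Not at hi hj'
    obtain ⟨y, hy, hy1, hy2⟩ := hi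
    obtain ⟨z, hz, hz1, hz2⟩ := hj'
    have e1 := hF3 i j hij y hy z
    have e2 : dist z y ≤ dist z n + dist y n := dist_triangle_right _ _ _
    have e3 := hρlip y z
    have e4 : dist y z = dist z y := dist_comm _ _
    have e5 : 0 ≤ dist z y := dist_nonneg
    linarith
  have claim' : ∀ᶠ j in atTop, ∀ n ∈ v.support, ∀ y ∈ (uj j).support, ρ y ≤ 2 * ρj j y →
      ρ y ≤ 6 * dist y n := by
    rw [Filter.eventually_all_finset]
    exact fun n _ => claim n
  obtain ⟨j₀, hj₀⟩ := Filter.eventually_atTop.1 claim'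
  -- the family of values
  let P : Type u := {p : ℕ × M // j₀ ≤ p.1 ∧ p.2 ∈ (uj p.1).support ∧ ρ p.2 ≤ 2 * ρj p.1 p.2}
  let Q : Type u := {n : M // n ∈ E₀ ∨ n ∈ v.support}
  let yy : P ⊕ Q → M := Sum.elim (fun p => p.1.2) (fun n => n.1)
  let vv : P ⊕ Q → ℝ := Sum.elim (fun p => hj p.1.1 (δ p.1.2)) (fun _ => 0)
  have hlt : ∀ i j, i < j → ∀ y ∈ (uj i).support, ∀ z, ρ z ≤ 2 * ρj j z →
      |hj i (δ y)| ≤ 3 * dist y z ∧ |hj j (δ z)| ≤ dist y z := by
    intro i j hij y hy z hz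
    have e1 := hF3 i j hij y hy z
    have e2 := hhρ i y
    have e3 := hhρ j z
    have e4 := hρlip y z
    have e5 := hρjρ i y
    have e6 : dist z y = dist y z := dist_comm _ _
    constructor <;> linarith
  have hPQ : ∀ (p : P) (q : Q), |hj p.1.1 (δ p.1.2)| ≤ 6 * dist p.1.2 q.1 := by
    rintro ⟨⟨j, y⟩, hp1, hp2, hp3⟩ ⟨n, hn⟩
    simp only at hp1 hp2 hp3 ⊢
    have e1 := hhρ j y
    have e2 := hρjρ j y
    have e3 : 0 ≤ dist y n := dist_nonneg
    rcases hn with hn | hn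
    · have e4 : ρ y ≤ dist y n := Metric.infDist_le_dist_of_mem (by simpa using hn)
      linarith
    · have e4 := hj₀ j hp1 n hn y hp2 hp3
      linarith
  obtain ⟨f, hf, hfv⟩ := extend_family yy vv 6 (by
    rintro (p | p) (q | q)
    · obtain ⟨⟨i, y⟩, hp1, hp2, hp3⟩ := p
      obtain ⟨⟨j, z⟩, hq1, hq2, hq3⟩ := q
      simp only [yy, vv, Sum.elim_inl, NNReal.coe_ofNat]
      simp only at hp1 hp2 hp3 hq1 hq2 hq3
      have e3 : 0 ≤ dist y z := dist_nonneg
      rcases lt_trichotomy i j with hij | hij | hij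
      · obtain ⟨e1, e2⟩ := hlt i j hij y hp2 z hq3
        have e4 := abs_sub (hj i (δ y)) (hj j (δ z))
        linarith
      · subst hij
        have e1 := dual_lip hF (hj i) (h1 _) y z
        linarith
      · obtain ⟨e1, e2⟩ := hlt j i hij z hq2 y hp3
        have e4 := abs_sub (hj i (δ y)) (hj j (δ z))
        rw [dist_comm z y] at e1 e2
        linarith
    · simp only [yy, vv, Sum.elim_inl, Sum.elim_inr, NNReal.coe_ofNat, sub_zero]
      exact hPQ p q
    · simp only [yy, vv, Sum.elim_inl, Sum.elim_inr, NNReal.coe_ofNat, zero_sub, abs_neg]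
      rw [dist_comm]
      exact hPQ q p
    · simp only [yy, vv, Sum.elim_inr, sub_zero, abs_zero]
      positivity)
  simp only [NNReal.coe_ofNat] at hf
  have hfQ : ∀ n, (n ∈ E₀ ∨ n ∈ v.support) → f n = 0 := fun n hn => hfv (Sum.inr ⟨n, hn⟩)
  have hfP : ∀ j y, j₀ ≤ j → y ∈ (uj j).support → ρ y ≤ 2 * ρj j y → f y = hj j (δ y) :=
    fun j y e1 e2 e3 => hfv (Sum.inl ⟨(j, y), e1, e2, e3⟩)
  obtain ⟨φ, hφ, hφf⟩ := hF.ext f 6 (by norm_num) (hfQ o (Or.inl hoE₀)) hf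
  have hfρ : ∀ y, |f y| ≤ 6 * ρ y := by
    intro y
    have h2 : |f y| / 6 ≤ ρ y := by
      refine (Metric.le_infDist (by simpa using hE₀ne)).2 fun e he => ?_
      have h3 := hf y e
      rw [hfQ e (Or.inl (by simpa using he)), sub_zero] at h3
      linarith
    linarith
  refine ⟨φ, hφ, ?_⟩
  filter_upwards [eventually_ge_atTop j₀] with j hjj
  have g1 : φ (Finsupp.linearCombination ℝ δ v) = 0 := by
    rw [apply_lc]
    refine Finset.sum_eq_zero fun y hy => ?_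
    rw [hφf, hfQ y (Or.inr hy), mul_zero]
  have g2 : |φ (Finsupp.linearCombination ℝ δ (uj j)) -
      hj j (Finsupp.linearCombination ℝ δ (uj j))| ≤ 14 * η := by
    rw [apply_lc, apply_lc, ← Finset.sum_sub_distrib]
    calc |∑ y ∈ (uj j).support, (uj j y * φ (δ y) - uj j y * hj j (δ y))|
        ≤ ∑ y ∈ (uj j).support, |uj j y * φ (δ y) - uj j y * hj j (δ y)| :=
          Finset.abs_sum_le_sum_abs _ _
      _ ≤ ∑ y ∈ (uj j).support, 14 * (|uj j y| * (ρ y - ρj j y)) := by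
          refine Finset.sum_le_sum fun y hy => ?_
          rw [← mul_sub, abs_mul, hφf]
          have e5 := abs_nonneg (uj j y)
          have e6 : |f y - hj j (δ y)| ≤ 14 * (ρ y - ρj j y) := by
            have e1 := hρjρ j y
            by_cases hy' : ρ y ≤ 2 * ρj j y
            · rw [hfP j y hjj hy hy', sub_self, abs_zero]
              linarith
            · push Not at hy'
              have e2 := hfρ y
              have e3 := hhρ j y
              have e4 := abs_sub (f y) (hj j (δ y))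
              linarith
          calc _ ≤ |uj j y| * (14 * (ρ y - ρj j y)) := mul_le_mul_of_nonneg_left e6 e5
            _ = _ := by ring
      _ = 14 * ∑ y ∈ (uj j).support, |uj j y| * (ρ y - ρj j y) := by rw [Finset.mul_sum]
      _ ≤ 14 * η := by have := (hη' j).le; linarith
  have g3 : c ≤ hj j (a (nx (Es j))) := hca _
  have g4 : |hj j (Finsupp.linearCombination ℝ δ (uj j) - a (nx (Es j)))| ≤ τ := by
    calc _ ≤ ‖hj j‖ * ‖Finsupp.linearCombination ℝ δ (uj j) - a (nx (Es j))‖ :=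
          (hj j).le_opNorm _
      _ ≤ 1 * τ := mul_le_mul (h1 _) (hua _) (norm_nonneg _) zero_le_one
      _ = τ := one_mul τ
  have g5 : |φ (Finsupp.linearCombination ℝ δ (uj j) - a (nx (Es j)))| ≤ 6 * τ := by
    calc _ ≤ ‖φ‖ * ‖Finsupp.linearCombination ℝ δ (uj j) - a (nx (Es j))‖ := φ.le_opNorm _
      _ ≤ 6 * τ := mul_le_mul hφ (hua _) (norm_nonneg _) (by norm_num)
  have g6 : |φ (Finsupp.linearCombination ℝ δ v - x)| ≤ ε := by
    calc _ ≤ ‖φ‖ * ‖Finsupp.linearCombination ℝ δ v - x‖ := φ.le_opNorm _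
      _ ≤ 6 * (ε / 6) := mul_le_mul hφ hv (norm_nonneg _) (by norm_num)
      _ = ε := by ring
  rw [map_sub] at g4 g5 g6 ⊢
  rw [g1] at g6
  rw [abs_le] at g2 g4 g5 g6
  linarith [g2.1, g2.2, g4.1, g4.2, g5.1, g5.2, g6.1, g6.2]

end Case2

end Pool.Agent.D0H28.WK
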