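import Pool.Agent.D0H28.WK.Abs

set_option autoImplicit false

/-!
# A lower bound for `wk` and an upper bound for De Blasi's measure
-/

noncomputable section

namespace Pool.Agent.D0H28.WK

open Set Filter Topology
open scoped ENNReal

universe u v

theorem dist_zero_le_of_norm_le {E : Type v} [SeminormedAddCommGroup E] (x : E) {R : ℝ}
    (h : ‖x‖ ≤ R) : dist x 0 ≤ R := by rwa [dist_zero_right]

section Crit

variable {X : Type v} [NormedAddCommGroup X] [NormedSpace ℝ X]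

theorem wk_ge (A : Set X) (R : ℝ) (hA : ∀ a ∈ A, ‖a‖ ≤ R) (a : ℕ → X) (ha : ∀ j, a j ∈ A)
    (κ b : ℝ) (hκ : 0 < κ)
    (h : ∀ x : X, ∃ φ : StrongDual ℝ X, ‖φ‖ ≤ κ ∧ ∀ᶠ j in atTop, b ≤ φ (a j - x)) :
    ENNReal.ofReal (b / κ) ≤ wk A := by
  classical
  let J : X →L[ℝ] StrongDual ℝ (StrongDual ℝ X) := NormedSpace.inclusionInDoubleDual ℝ X
  let z : ℕ → WeakDual ℝ (StrongDual ℝ X) := fun j => StrongDual.toWeakDual (J (a j))
  let B : Set (WeakDual ℝ (StrongDual ℝ X)) :=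
    WeakDual.toStrongDual ⁻¹' Metric.closedBall (0 : StrongDual ℝ (StrongDual ℝ X)) R
  have hB : IsCompact B := WeakDual.isCompact_closedBall 0 R
  have hzB : ∀ j, z j ∈ B := by
    intro j
    have h1 : ‖J (a j)‖ ≤ R := (NormedSpace.double_dual_bound ℝ X (a j)).trans (hA _ (ha j))
    have h2 : dist (J (a j)) 0 ≤ R :=
      dist_zero_le_of_norm_le (E := StrongDual ℝ (StrongDual ℝ X)) (J (a j)) h1
    exact h2
  let U : Ultrafilter ℕ := Filter.hyperfilter ℕ
  have hU : (U : Filter ℕ) ≤ atTop := Nat.hyperfilter_le_atTop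
  have hmap : (↑(U.map z) : Filter (WeakDual ℝ (StrongDual ℝ X))) ≤ 𝓟 B := by
    rw [Filter.le_principal_iff]
    change z ⁻¹' B ∈ (U : Filter ℕ)
    exact Filter.univ_mem' hzB
  obtain ⟨w, hwB, hw⟩ := hB.ultrafilter_le_nhds (U.map z) hmap
  have hw' : Tendsto z U (𝓝 w) := hw
  have hwcl : w ∈ closure (StrongDual.toWeakDual ''
      (NormedSpace.inclusionInDoubleDual ℝ X '' A)) := by
    refine mem_closure_of_tendsto hw' (Filter.Eventually.of_forall fun j => ?_)
    exact ⟨J (a j), ⟨a j, ha j, rfl⟩, rfl⟩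
  let w' : StrongDual ℝ (StrongDual ℝ X) := WeakDual.toStrongDual w
  have hw'cl : w' ∈ wstarClosure A := hwcl
  have key : ENNReal.ofReal (b / κ) ≤
      Metric.infEDist w' (Set.range (NormedSpace.inclusionInDoubleDual ℝ X)) := by
    rw [Metric.le_infEDist]
    rintro _ ⟨x, rfl⟩
    obtain ⟨φ, hφ, hj⟩ := h x
    have h1 : Tendsto (fun j => z j φ) U (𝓝 (w φ)) :=
      (WeakDual.eval_continuous φ).tendsto w |>.comp hw'
    have h2 : b ≤ w φ - φ x := by
      have h3 : Tendsto (fun j => z j φ - φ x) U (𝓝 (w φ - φ x)) := h1.sub_const _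
      refine ge_of_tendsto h3 (hU ?_)
      filter_upwards [hj] with j hj'
      rw [map_sub] at hj'
      exact hj'
    have h4 : w φ - φ x ≤ ‖w' - J x‖ * κ := by
      have h5 : w φ - φ x = (w' - J x) φ := rfl
      rw [h5]
      calc _ ≤ ‖(w' - J x) φ‖ := le_abs_self _
        _ ≤ ‖w' - J x‖ * ‖φ‖ := ContinuousLinearMap.le_opNorm _ _
        _ ≤ ‖w' - J x‖ * κ := by gcongr
    rw [edist_dist, dist_eq_norm]
    apply ENNReal.ofReal_le_ofReal
    rw [div_le_iff₀ hκ]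
    exact h2.trans h4
  exact key.trans (le_iSup₂_of_le (f := fun z (_ : z ∈ wstarClosure A) => Metric.infEDist z
    (Set.range (NormedSpace.inclusionInDoubleDual ℝ X))) w' hw'cl le_rfl)

theorem deBlasi_le (F : Submodule ℝ X) [FiniteDimensional ℝ F] (A : Set X) (R : ℝ)
    (hR : 0 ≤ R) (hA : ∀ a ∈ A, ‖a‖ ≤ R) (c : ℝ) (hc : 0 ≤ c)
    (h : ∀ a ∈ A, ∃ p ∈ F, ‖a - p‖ ≤ c) : deBlasi A ≤ ENNReal.ofReal c := by
  let K : Set X := F.subtype '' (Metric.closedBall (0 : F) (R + c))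
  have hK : IsCompact K := by
    have : ProperSpace F := FiniteDimensional.proper ℝ F
    exact (isCompact_closedBall _ _).image F.subtypeL.continuous
  have hKw : IsWeaklyCompact K := hK.image (toWeakSpaceCLM ℝ X).continuous
  have hKne : K.Nonempty := ⟨0, 0, by simpa using add_nonneg hR hc, map_zero _⟩
  rw [deBlasi]
  refine iInf_le_of_le K (iInf_le_of_le hKne (iInf_le_of_le hKw ?_))
  refine iSup₂_le fun a ha => ?_
  obtain ⟨p, hp, hap⟩ := h a ha
  have hpK : p ∈ K := by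
    refine ⟨⟨p, hp⟩, ?_, rfl⟩
    rw [mem_closedBall_zero_iff]
    change ‖p‖ ≤ R + c
    calc ‖p‖ = ‖a - (a - p)‖ := by congr 1; abel
      _ ≤ ‖a‖ + ‖a - p‖ := norm_sub_le _ _
      _ ≤ R + c := add_le_add (hA a ha) hap
  refine (Metric.infEDist_le_edist_of_mem hpK).trans ?_
  rw [edist_dist, dist_eq_norm]
  exact ENNReal.ofReal_le_ofReal hap

end Crit

end Pool.Agent.D0H28.WK
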