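import Mathlib

set_option autoImplicit false

/-!
# Measures of weak non-compactness in Lipschitz-free spaces: definitions
-/

noncomputable section

namespace Pool.Agent.D0H28.WK

open Set Filter Topology
open scoped ENNReal

universe u v

/-! ### The two measures of weak non-compactness -/

section Measures

variable {X : Type v} [NormedAddCommGroup X] [NormedSpace ℝ X]

/-- The excess `sup_{a ∈ A} dist (a, B)`. -/
def excess {E : Type v} [PseudoEMetricSpace E] (A B : Set E) : ℝ≥0∞ :=
  ⨆ a ∈ A, Metric.infEDist a B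

/-- `K` is weakly compact. -/
def IsWeaklyCompact (K : Set X) : Prop := IsCompact (toWeakSpace ℝ X '' K)

/-- De Blasi's measure: the infimum over all nonempty weakly compact sets `K` of
`sup_{a ∈ A} dist (a, K)`. -/
def deBlasi (A : Set X) : ℝ≥0∞ :=
  ⨅ (K : Set X) (_ : K.Nonempty) (_ : IsWeaklyCompact K), excess A K

/-- The weak-star closure in the bidual of the canonical image of `A`. -/
def wstarClosure (A : Set X) : Set (StrongDual ℝ (StrongDual ℝ X)) :=
  {z | StrongDual.toWeakDual z ∈
    closure (StrongDual.toWeakDual '' (NormedSpace.inclusionInDoubleDual ℝ X '' A))}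

/-- The measure `wk`: the excess of the weak-star closure of `A` in the bidual over the
canonical image of `X`. -/
def wk (A : Set X) : ℝ≥0∞ :=
  excess (wstarClosure A) (Set.range (NormedSpace.inclusionInDoubleDual ℝ X))

end Measures

/-! ### The Lipschitz-free space -/

/-- The vector space of Lipschitz functions on `M` vanishing at the base point `o`. -/
def lipSub (M : Type u) [MetricSpace M] (o : M) : Submodule ℝ (M → ℝ) where
  carrier := {f | f o = 0 ∧ ∃ K : ℝ, 0 ≤ K ∧ ∀ x y, |f x - f y| ≤ K * dist x y}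
  zero_mem' := ⟨rfl, 0, le_rfl, fun x y => by simp⟩
  add_mem' := by
    rintro f g ⟨hf, K, hK, hfK⟩ ⟨hg, L, hL, hgL⟩
    refine ⟨by simp [hf, hg], K + L, by positivity, fun x y => ?_⟩
    have h1 := hfK x y
    have h2 := hgL x y
    have : (f + g) x - (f + g) y = (f x - f y) + (g x - g y) := by
      simp only [Pi.add_apply]; ring
    rw [this]
    calc _ ≤ |f x - f y| + |g x - g y| := abs_add_le _ _
      _ ≤ _ := by rw [add_mul]; exact add_le_add h1 h2
  smul_mem' := by
    rintro c f ⟨hf, K, hK, hfK⟩
    refine ⟨by simp [hf], |c| * K, by positivity, fun x y => ?_⟩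
    have h1 := hfK x y
    have : (c • f) x - (c • f) y = c * (f x - f y) := by
      simp only [Pi.smul_apply, smul_eq_mul]; ring
    rw [this, abs_mul, mul_assoc]
    exact mul_le_mul_of_nonneg_left h1 (abs_nonneg _)

/-- `Lip0 M o`: the space of real Lipschitz functions on `M` vanishing at `o`; it is normed by
the least Lipschitz constant (the instances below). -/
def Lip0 (M : Type u) [MetricSpace M] (o : M) : Type u := ↥(lipSub M o)

namespace Lip0

variable {M : Type u} [MetricSpace M] {o : M}

/-- The underlying function. -/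
def fn (f : Lip0 M o) : M → ℝ := f.1

/-- Lipschitz functions vanishing at `o` form a group under pointwise addition. -/
instance instACG : AddCommGroup (Lip0 M o) := Submodule.addCommGroup (lipSub M o)
/-- Lipschitz functions vanishing at `o` form a real vector space. -/
instance instMod : Module ℝ (Lip0 M o) := Submodule.module (lipSub M o)

/-- The norm: the least Lipschitz constant. -/
instance : Norm (Lip0 M o) :=
  ⟨fun f => sInf {K : ℝ | 0 ≤ K ∧ ∀ x y, |f.fn x - f.fn y| ≤ K * dist x y}⟩

theorem ext' {f g : Lip0 M o} (h : ∀ x, f.fn x = g.fn x) : f = g :=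
  Subtype.ext (funext h)

theorem fn_add (f g : Lip0 M o) (x : M) : (f + g).fn x = f.fn x + g.fn x := rfl
theorem fn_smul (c : ℝ) (f : Lip0 M o) (x : M) : (c • f).fn x = c * f.fn x := rfl
theorem fn_zero (x : M) : (0 : Lip0 M o).fn x = 0 := rfl
theorem fn_base (f : Lip0 M o) : f.fn o = 0 := f.2.1

/-- Constructor. -/
def mk' (f : M → ℝ) (h0 : f o = 0) (K : ℝ) (hK : 0 ≤ K)
    (h : ∀ x y, |f x - f y| ≤ K * dist x y) : Lip0 M o := ⟨f, h0, K, hK, h⟩

theorem fn_mk' (f : M → ℝ) (h0 : f o = 0) (K : ℝ) (hK : 0 ≤ K)
    (h : ∀ x y, |f x - f y| ≤ K * dist x y) (x : M) :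
    (mk' f h0 K hK h).fn x = f x := rfl

theorem set_nonempty (f : Lip0 M o) :
    {K : ℝ | 0 ≤ K ∧ ∀ x y, |f.fn x - f.fn y| ≤ K * dist x y}.Nonempty := by
  obtain ⟨K, hK, h⟩ := f.2.2
  exact ⟨K, hK, h⟩

theorem norm_def (f : Lip0 M o) :
    ‖f‖ = sInf {K : ℝ | 0 ≤ K ∧ ∀ x y, |f.fn x - f.fn y| ≤ K * dist x y} := rfl

theorem norm_le' (f : Lip0 M o) {K : ℝ} (hK : 0 ≤ K)
    (h : ∀ x y, |f.fn x - f.fn y| ≤ K * dist x y) : ‖f‖ ≤ K :=
  csInf_le ⟨0, fun _ h => h.1⟩ ⟨hK, h⟩

theorem norm_nonneg' (f : Lip0 M o) : 0 ≤ ‖f‖ :=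
  le_csInf f.set_nonempty fun _ h => h.1

theorem abs_sub_le (f : Lip0 M o) (x y : M) : |f.fn x - f.fn y| ≤ ‖f‖ * dist x y := by
  rcases eq_or_ne x y with rfl | hxy
  · simp
  · have hd : 0 < dist x y := dist_pos.2 hxy
    rw [← div_le_iff₀ hd]
    refine le_csInf f.set_nonempty ?_
    rintro K ⟨_, hK⟩
    rw [div_le_iff₀ hd]
    exact hK x y

theorem core : NormedSpace.Core ℝ (Lip0 M o) where
  norm_nonneg f := f.norm_nonneg'
  norm_smul c f := by
    apply le_antisymm
    · refine norm_le' _ (mul_nonneg (norm_nonneg _) f.norm_nonneg') fun x y => ?_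
      have h1 := f.abs_sub_le x y
      have : (c • f).fn x - (c • f).fn y = c * (f.fn x - f.fn y) := by
        simp only [fn_smul]; ring
      rw [this, abs_mul, mul_assoc]
      exact mul_le_mul_of_nonneg_left h1 (abs_nonneg _)
    · rcases eq_or_ne c 0 with rfl | hc
      · simp only [norm_zero, zero_mul]; exact norm_nonneg' _
      · have hc' : 0 < ‖c‖ := norm_pos_iff.2 hc
        rw [← le_div_iff₀' hc']
        refine norm_le' _ (div_nonneg (norm_nonneg' _) hc'.le) fun x y => ?_
        have h1 := (c • f).abs_sub_le x y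
        have : (c • f).fn x - (c • f).fn y = c * (f.fn x - f.fn y) := by
          simp only [fn_smul]; ring
        rw [this, abs_mul] at h1
        rw [div_mul_eq_mul_div, le_div_iff₀ hc']
        rw [Real.norm_eq_abs, mul_comm]
        exact h1
  norm_triangle f g := by
    refine norm_le' _ (add_nonneg f.norm_nonneg' g.norm_nonneg') fun x y => ?_
    have h1 := f.abs_sub_le x y
    have h2 := g.abs_sub_le x y
    have : (f + g).fn x - (f + g).fn y = (f.fn x - f.fn y) + (g.fn x - g.fn y) := by
      simp only [fn_add]; ring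
    rw [this]
    calc _ ≤ |f.fn x - f.fn y| + |g.fn x - g.fn y| := abs_add_le _ _
      _ ≤ _ := by rw [add_mul]; exact add_le_add h1 h2
  norm_eq_zero_iff f := by
    constructor
    · intro h
      apply ext'
      intro x
      have h1 := f.abs_sub_le x o
      rw [h, zero_mul, fn_base, sub_zero] at h1
      exact abs_nonpos_iff.1 h1
    · rintro rfl
      apply le_antisymm _ (norm_nonneg' _)
      refine norm_le' _ le_rfl fun x y => by simp [fn_zero]

instance instNormed : NormedAddCommGroup (Lip0 M o) :=
  NormedAddCommGroup.ofCore (core (M := M) (o := o))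
instance instSpace : NormedSpace ℝ (Lip0 M o) := NormedSpace.ofCore (core (M := M) (o := o))

/-- The norm is the least Lipschitz constant. -/
theorem norm_eq (f : Lip0 M o) :
    ‖f‖ = sInf {K : ℝ | 0 ≤ K ∧ ∀ x y, |f.fn x - f.fn y| ≤ K * dist x y} := rfl

theorem abs_fn_le (f : Lip0 M o) (x : M) : |f.fn x| ≤ ‖f‖ * dist x o := by
  have := f.abs_sub_le x o
  rwa [fn_base, sub_zero] at this

end Lip0

section Free

variable {M : Type u} [MetricSpace M] {o : M}

/-- The evaluation functional at `x`. -/
def evalAt (M : Type u) [MetricSpace M] (o : M) (x : M) : StrongDual ℝ (Lip0 M o) :=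
  LinearMap.mkContinuous
    { toFun := fun f => f.fn x
      map_add' := fun _ _ => rfl
      map_smul' := fun _ _ => rfl } (dist x o) (fun f => by
        rw [mul_comm]
        exact f.abs_fn_le x)

theorem evalAt_apply (x : M) (f : Lip0 M o) : evalAt M o x f = f.fn x := rfl

/-- The closed linear span, in the dual of `Lip0 M o`, of the evaluation functionals. -/
def freeSub (M : Type u) [MetricSpace M] (o : M) : Submodule ℝ (StrongDual ℝ (Lip0 M o)) :=
  (Submodule.span ℝ (Set.range (evalAt M o))).topologicalClosure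

/-- The Lipschitz-free space `F(M)`: the closed linear span of the evaluation functionals in the
dual of `Lip0 M o`, with the norm of that dual. -/
abbrev FreeSpace (M : Type u) [MetricSpace M] (o : M) : Type u := ↥(freeSub M o)

/-- The canonical map from `M` to the free space. -/
def dlt (M : Type u) [MetricSpace M] (o : M) (x : M) : FreeSpace M o :=
  ⟨evalAt M o x, Submodule.le_topologicalClosure _ (Submodule.subset_span ⟨x, rfl⟩)⟩

end Free

end Pool.Agent.D0H28.WK
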