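import Pool.Agent.D0H28.WK.Crit
import Pool.Agent.D0H28.WK.Case1
import Pool.Agent.D0H28.WK.Case2

set_option autoImplicit false

/-!
# Equivalence of the measures over a uniformly separated metric space
-/

noncomputable section

namespace Pool.Agent.D0H28.WK

open Set Filter Topology
open scoped ENNReal

universe u v

theorem main_abs {M : Type u} [MetricSpace M] {o : M} {X : Type v} [NormedAddCommGroup X]
    [NormedSpace ℝ X] {δ : M → X} (hF : FreeLike o δ) {θ : ℝ} (hθ : 0 < θ)
    (hsep : ∀ x y : M, x ≠ y → θ ≤ dist x y) (A : Set X) (hA : Bornology.IsBounded A) :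
    deBlasi A ≤ 27 * wk A := by
  classical
  obtain ⟨R₀, hR₀⟩ := hA.exists_norm_le
  let R := max R₀ 0
  have hR0 : 0 ≤ R := le_max_right _ _
  have hR : ∀ a ∈ A, ‖a‖ ≤ R := fun a ha => (hR₀ a ha).trans (le_max_left _ _)
  by_contra hcon
  rw [not_le] at hcon
  obtain ⟨c, hc0, hc1, hc2⟩ := ENNReal.lt_iff_exists_real_btwn.1 hcon
  have hcpos : 0 < c := ENNReal.ofReal_pos.1 (lt_of_le_of_lt bot_le hc1)
  have hwtop : wk A ≠ ⊤ := by
    intro h
    rw [h, ENNReal.mul_top (by norm_num)] at hc1
    exact absurd hc1 not_top_lt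
  let w : ℝ := (wk A).toReal
  have hw0 : 0 ≤ w := ENNReal.toReal_nonneg
  have hw : wk A = ENNReal.ofReal w := (ENNReal.ofReal_toReal hwtop).symm
  have hwc : 27 * w < c := by
    rw [hw, show (27 : ℝ≥0∞) = ENNReal.ofReal 27 by norm_num,
      ← ENNReal.ofReal_mul (by norm_num)] at hc1
    exact (ENNReal.ofReal_lt_ofReal_iff hcpos).1 hc1
  -- distances to finite dimensional subspaces
  have hfin : ∀ N : Finset M, ∃ a ∈ A,
      ∀ p ∈ Submodule.span ℝ (δ '' (N : Set M)), c ≤ ‖a - p‖ := by
    intro N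
    by_contra hN
    push Not at hN
    have : FiniteDimensional ℝ (Submodule.span ℝ (δ '' (N : Set M))) :=
      FiniteDimensional.span_of_finite ℝ (N.finite_toSet.image δ)
    have := deBlasi_le (Submodule.span ℝ (δ '' (N : Set M))) A R hR0 hR c hc0 (fun a ha => by
      obtain ⟨p, hp, hap⟩ := hN a ha
      exact ⟨p, hp, hap.le⟩)
    exact absurd hc2 (not_lt.2 this)
  let s : ℝ := (c / 27 - w) / 8
  have hs : 0 < s := by
    have : 0 < c / 27 - w := by linarith
    positivity
  have hs8 : 8 * s = c / 27 - w := by simp only [s]; ring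
  suffices hmain : ENNReal.ofReal (c / 27 - 4 * s) ≤ wk A by
    rw [hw] at hmain
    have := (ENNReal.ofReal_le_ofReal_iff hw0).1 hmain
    linarith
  by_cases hcase : ∃ r : ℝ, ∀ a ∈ A,
      ∃ p ∈ Submodule.span ℝ (δ '' Metric.closedBall o r), ‖a - p‖ < c / 9
  · obtain ⟨r, hr⟩ := hcase
    obtain ⟨a, haA, ha⟩ := case2 hF hθ hsep A R hR c (c / 9) (max r 0) s (le_max_right _ _) hs
      hfin (by
        intro a ha
        obtain ⟨p, hp, hap⟩ := hr a ha
        rw [Finsupp.mem_span_image_iff_linearCombination] at hp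
        obtain ⟨u, hu, rfl⟩ := hp
        refine ⟨u, fun y hy => ?_, ?_⟩
        · rw [Finsupp.mem_supported] at hu
          have := hu (by simpa using hy)
          exact (Metric.mem_closedBall.1 this).trans (le_max_left _ _)
        · rw [norm_sub_rev]; exact hap.le)
    refine le_trans (ENNReal.ofReal_le_ofReal ?_)
      (wk_ge A R hR a haA 6 (c - 7 * (c / 9) - 14 * s - s) (by norm_num) fun x => ha x s hs)
    linarith
  · push Not at hcase
    obtain ⟨a, haA, ha⟩ := case1 hF A R hR (c / 9) s s hs hs hcase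
    refine le_trans (ENNReal.ofReal_le_ofReal ?_)
      (wk_ge A R hR a haA 3 (c / 9 - 4 * s - s - s) (by norm_num) fun x => ha x s hs)
    linarith

end Pool.Agent.D0H28.WK
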